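import Mathlib

set_option autoImplicit false

namespace Pool.Agent.KS6_36.QuadWidth

/-- The arithmetic behind the quadratic bound. -/
theorem final2 (e w a b h C N τ T : ℕ) (he : 1 ≤ e) (hN : e ≤ N) (hτ : 1 ≤ τ) (hτN : τ * N ≤ w)
    (hT : e * (T + 1) ≤ N ^ 2 + e) (hC : C + τ ≤ 1 + τ * T) (hh : h + 1 ≤ T)
    (hh1 : τ = 1 → h + N ≤ T) :
    e * (a * C + b * h) + e * w * b ≤ (a + b) * w ^ 2 := by
  have hT' : e * T ≤ N ^ 2 := by
    have : e * (T + 1) = e * T + e := by ring
    omega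
  have key1 : e * C ≤ w ^ 2 := by
    have h1 : C ≤ τ * T := by omega
    calc e * C ≤ e * (τ * T) := Nat.mul_le_mul_left _ h1
      _ = τ * (e * T) := by ring
      _ ≤ τ * N ^ 2 := Nat.mul_le_mul_left _ hT'
      _ = (τ * N) * N := by ring
      _ ≤ (τ * N) * (τ * N) := Nat.mul_le_mul_left _ (Nat.le_mul_of_pos_left _ hτ)
      _ ≤ w * w := Nat.mul_le_mul hτN hτN
      _ = w ^ 2 := by ring
  have key2 : e * h + e * w ≤ w ^ 2 := by
    rcases Nat.lt_or_ge τ 2 with h1 | h1
    · have hτ1 : τ = 1 := by omega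
      subst hτ1
      have h2 := hh1 rfl
      have h3 : e * h + e * N ≤ N ^ 2 := by
        calc e * h + e * N = e * (h + N) := by ring
          _ ≤ e * T := Nat.mul_le_mul_left _ h2
          _ ≤ N ^ 2 := hT'
      obtain ⟨d, rfl⟩ : ∃ d, w = N + d := ⟨w - N, by omega⟩
      obtain ⟨f, rfl⟩ : ∃ f, N = e + f := ⟨N - e, by omega⟩
      nlinarith [Nat.zero_le (d * f), Nat.zero_le (d * d), Nat.zero_le (d * e)]
    · have h2 : e * h ≤ N ^ 2 := by
        calc e * h ≤ e * T := Nat.mul_le_mul_left _ (by omega)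
          _ ≤ N ^ 2 := hT'
      have h3 : 2 * N ≤ w := le_trans (Nat.mul_le_mul_right _ h1) hτN
      obtain ⟨d, rfl⟩ : ∃ d, w = 2 * N + d := ⟨w - 2 * N, by omega⟩
      obtain ⟨f, rfl⟩ : ∃ f, N = e + f := ⟨N - e, by omega⟩
      nlinarith [Nat.zero_le (d * f), Nat.zero_le (d * d), Nat.zero_le (d * e), Nat.zero_le (f * e),
        Nat.zero_le (f * f)]
  calc e * (a * C + b * h) + e * w * b = a * (e * C) + b * (e * h + e * w) := by ring
    _ ≤ a * w ^ 2 + b * w ^ 2 := Nat.add_le_add (Nat.mul_le_mul_left _ key1)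
        (Nat.mul_le_mul_left _ key2)
    _ = _ := by ring

/-- The arithmetic of the first Betti number. -/
theorem first (e w b : ℕ) (he : 1 ≤ e) (hw : e ≤ w) (hb : b ≤ (w + 1).choose 2) :
    e * (b + e.choose 2) + e * w ≤ (e + 1) * w ^ 2 := by
  have h1 : 2 * (w + 1).choose 2 = (w + 1) * w := by
    have := Nat.add_one_mul_choose_eq w 1
    simp only [Nat.choose_one_right] at this
    linarith
  have h2 : 2 * e.choose 2 + e = e * e := by
    obtain ⟨f, rfl⟩ : ∃ f, e = f + 1 := ⟨e - 1, by omega⟩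
    have := Nat.add_one_mul_choose_eq f 1
    simp only [Nat.choose_one_right] at this
    nlinarith
  have h3 : 2 * (e * (b + e.choose 2) + e * w) ≤ 2 * ((e + 1) * w ^ 2) := by
    calc 2 * (e * (b + e.choose 2) + e * w)
        ≤ 2 * (e * ((w + 1).choose 2 + e.choose 2) + e * w) := by
          apply Nat.mul_le_mul_left
          apply Nat.add_le_add_right
          exact Nat.mul_le_mul_left _ (Nat.add_le_add_right hb _)
      _ = e * ((w + 1) * w) + e * (2 * e.choose 2) + 2 * (e * w) := by rw [← h1]; ring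
      _ ≤ 2 * ((e + 1) * w ^ 2) := by
          obtain ⟨d, rfl⟩ : ∃ d, w = e + d := ⟨w - e, by omega⟩
          have h4 : e * (2 * e.choose 2) + e * e = e * (e * e) := by
            calc e * (2 * e.choose 2) + e * e = e * (2 * e.choose 2 + e) := by ring
              _ = e * (e * e) := by rw [h2]
          nlinarith [Nat.zero_le (d * d), Nat.zero_le (d * e), Nat.zero_le (d * e * e),
            Nat.zero_le (d * d * e), mul_le_mul he he (Nat.zero_le _) (Nat.zero_le _)]
  omega

end Pool.Agent.KS6_36.QuadWidth
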