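import Mathlib
import Pool.Graph.R_seed8.Helper816.KZero
import Pool.Agent.KS6_36.QuadWidth.Num

set_option autoImplicit false
set_option linter.unusedSectionVars false

open Finset MvPolynomial

namespace Pool.Agent.KS6_36.QuadWidth

open Pool.Agent.Helper816.KM Pool.Agent.Helper816.KG Pool.Agent.Helper816.KTor
open Pool.Agent.Helper816.KFinal
open Pool.Agent.Helper816
open Pool.Agent.Helper816.TCAlg Pool.Agent.Helper816.TCFin
open Pool.Agent.Helper816.TCC (gam vv Hole)
open Pool.Agent.Helper816.TC (Mem Adj)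

variable (K : Type) [Field K]

/-- The Koszul homology bound in degree at least two. -/
theorem hl_bound2 {c : ℕ} (g : Fin (c + 1 + 1) → ℕ) (hg : StrictMono g) (h0 : 0 < g 0)
    (hmin : ∀ j : Fin (c + 1 + 1), ¬ ∃ d : Fin (c + 1 + 1) → ℕ, d j = 0 ∧ ∑ l, d l * g l = g j)
    (s : ℕ) :
    ∃ b : ℕ, hl (GG K g) (fun j => (X (ix c j) : MvPolynomial (Fin (c + 1 + 1)) K)) (s + 2) ≤
      (b : ℕ∞) ∧ (c + 1) * (b + (c + 1).choose (s + 3)) +
        (c + 1) * (g (Fin.last (c + 1)) - g 0) * (c + 1).choose (s + 1) ≤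
        ((c + 1).choose (s + 2) + (c + 1).choose (s + 1)) * (g (Fin.last (c + 1)) - g 0) ^ 2 := by
  classical
  have hpos : ∀ i, 0 < g i := fun i => lt_of_lt_of_le h0 (hg.monotone (Fin.zero_le i))
  obtain ⟨Cp, hCp, Dh, hDh, N, T, τ, h1, h2, h3, h4, h5, h6, h7⟩ :=
    TCC.cp_hole (e := c + 1) (by omega) hg h0
  have hnum := final2 (c + 1) (g (Fin.last (c + 1)) - g 0) ((c + 1).choose (s + 2))
    ((c + 1).choose (s + 1)) Dh.card Cp.card N τ T (by omega) h1 h2 h3 h5 h4 h6 h7
  set x : MvPolynomial (Fin (c + 1 + 1)) K := X 0 with hx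
  set y : MvPolynomial (Fin (c + 1 + 1)) K := X (Fin.last (c + 1)) with hy
  set f : Fin (c + 1 + 1) → MvPolynomial (Fin (c + 1 + 1)) K := fun j => X (ix c j) with hf
  set f2 : Fin c → MvPolynomial (Fin (c + 1 + 1)) K := fun j => X (j.castSucc.succ) with hf2
  have hc1 : hl (GG K g) f (s + 2) ≤ hl (M1 K g) (fun j => f j.succ) (s + 1) +
      hl (M0 K g) (fun j => f j.succ) (s + 2) := hl_cone (M := GG K g) f (s + 1)
  have hc2 : hl (M1 K g) (fun j => f j.succ) (s + 1) ≤ hl (KK (M1 K g) y) f2 s +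
      hl (CK (M1 K g) y) f2 (s + 1) := hl_cone (M := M1 K g) (fun j => f j.succ) s
  have hc3 : hl (M0 K g) (fun j => f j.succ) (s + 2) ≤ hl (KK (M0 K g) y) f2 (s + 1) +
      hl (CK (M0 K g) y) f2 (s + 2) := hl_cone (M := M0 K g) (fun j => f j.succ) (s + 1)
  -- lengths
  have hK11 : Module.length K (M11 K g) ≤ Dh.card := length_M11 K g Dh hDh
  have hK00 : Module.length K (M00 K g) ≤ Cp.card := length_M00 K g hg Cp hCp
  have hA11 : Module.length (MvPolynomial (Fin (c + 1 + 1)) K) (M11 K g) ≤ Dh.card :=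
    (length_le_restrict (K := K) _).trans hK11
  have hA00 : Module.length (MvPolynomial (Fin (c + 1 + 1)) K) (M00 K g) ≤ Cp.card :=
    (length_le_restrict (K := K) _).trans hK00
  have hn0 : ∀ m : M0 K g, y ^ (g 0) • m = 0 := by
    intro m
    obtain ⟨w, rfl⟩ := Submodule.Quotient.mk_surjective _ m
    rw [← Submodule.Quotient.mk_smul, nilp K g hg w, Submodule.Quotient.mk_zero]
  have hn1 : ∀ m : M1 K g, y ^ (g 0) • m = 0 := by
    intro m
    apply Subtype.ext
    show y ^ (g 0) • m.1 = 0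
    exact nilp K g hg m.1
  have hA01 : Module.length (MvPolynomial (Fin (c + 1 + 1)) K) (KK (M0 K g) y) ≤ Cp.card := by
    rw [len_eq_coker y (g 0) hn0 (ne_top_of_le_ne_top (ENat.natCast_ne_top _) hA00)]
    exact hA00
  have hA10 : Module.length (MvPolynomial (Fin (c + 1 + 1)) K) (CK (M1 K g) y) ≤ Dh.card := by
    rw [← len_eq_ker y (g 0) hn1 (ne_top_of_le_ne_top (ENat.natCast_ne_top _) hA11)]
    exact hA11
  -- the four pieces
  have b1 : hl (KK (M1 K g) y) f2 s ≤ ((c.choose s * Dh.card : ℕ) : ℕ∞) := by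
    refine (hl_le f2 s).trans ?_
    rw [Nat.cast_mul]
    exact mul_le_mul' le_rfl hA11
  have b2 : hl (CK (M1 K g) y) f2 (s + 1) ≤ ((c.choose (s + 1) * Dh.card : ℕ) : ℕ∞) := by
    refine (hl_le f2 (s + 1)).trans ?_
    rw [Nat.cast_mul]
    exact mul_le_mul' le_rfl hA10
  have b3 : hl (KK (M0 K g) y) f2 (s + 1) ≤ ((c.choose (s + 1) * Cp.card : ℕ) : ℕ∞) := by
    refine (hl_le f2 (s + 1)).trans ?_
    rw [Nat.cast_mul]
    exact mul_le_mul' le_rfl hA01
  have b4 : hl (CK (M0 K g) y) f2 (s + 2) + ((c + 1).choose (s + 3) : ℕ) ≤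
      ((c.choose (s + 2) * Cp.card : ℕ) : ℕ∞) := by
    have hne0 : ∀ j : Fin c, (j.castSucc.succ : Fin (c + 1 + 1)) ≠ 0 := fun j => Fin.succ_ne_zero _
    have hnel : ∀ j : Fin c, (j.castSucc.succ : Fin (c + 1 + 1)) ≠ Fin.last (c + 1) := by
      intro j h
      have h1 := congrArg Fin.val h
      simp at h1
      omega
    have hsav := hl_savings (K := K) (M := M00 K g) f2 (pi3 K g 1)
      (fun j => lam K g hpos hmin j.castSucc.succ (hne0 j) (hnel j)) (by
        intro j l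
        rw [← map_smul, smul_eq_mul, mul_one, lam_pi3]
        show coeff (Finsupp.single j.castSucc.succ 1) (X l.castSucc.succ) = _
        rw [coeff_X]
        by_cases hjl : j = l
        · subst hjl
          rw [if_pos rfl, if_pos rfl]
        · rw [if_neg hjl, if_neg]
          intro h
          have h1 := Finsupp.single_left_injective (one_ne_zero) h
          apply hjl
          exact (Fin.castSucc_injective _ (Fin.succ_injective _ h1)).symm) (s + 1)
    refine hsav.trans ?_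
    rw [Nat.cast_mul]
    exact mul_le_mul' le_rfl hK00
  -- numbers
  obtain ⟨n1, hn1'⟩ := ENat.ne_top_iff_exists.1 (ne_top_of_le_ne_top (ENat.natCast_ne_top _) b1)
  obtain ⟨n2, hn2'⟩ := ENat.ne_top_iff_exists.1 (ne_top_of_le_ne_top (ENat.natCast_ne_top _) b2)
  obtain ⟨n3, hn3'⟩ := ENat.ne_top_iff_exists.1 (ne_top_of_le_ne_top (ENat.natCast_ne_top _) b3)
  obtain ⟨n4, hn4'⟩ := ENat.ne_top_iff_exists.1
    (ne_top_of_le_ne_top (ENat.natCast_ne_top _) (le_self_add.trans b4))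
  rw [← hn1'] at b1 hc2
  rw [← hn2'] at b2 hc2
  rw [← hn3'] at b3 hc3
  rw [← hn4'] at b4 hc3
  have b1' : n1 ≤ c.choose s * Dh.card := by exact_mod_cast b1
  have b2' : n2 ≤ c.choose (s + 1) * Dh.card := by exact_mod_cast b2
  have b3' : n3 ≤ c.choose (s + 1) * Cp.card := by exact_mod_cast b3
  have b4' : n4 + (c + 1).choose (s + 3) ≤ c.choose (s + 2) * Cp.card := by exact_mod_cast b4
  refine ⟨n1 + n2 + (n3 + n4), hc1.trans ((add_le_add hc2 hc3).trans (by push_cast; exact le_rfl)),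
    ?_⟩
  have e1 : (c + 1).choose (s + 2) = c.choose (s + 1) + c.choose (s + 2) := Nat.choose_succ_succ _ _
  have e2 : (c + 1).choose (s + 1) = c.choose s + c.choose (s + 1) := Nat.choose_succ_succ _ _
  have hfin : n1 + n2 + (n3 + n4) + (c + 1).choose (s + 3) ≤
      (c + 1).choose (s + 2) * Cp.card + (c + 1).choose (s + 1) * Dh.card := by
    rw [e1, e2, add_mul, add_mul]
    omega
  exact (Nat.add_le_add_right (Nat.mul_le_mul_left _ hfin) _).trans hnum

/-- The Tor module of the frozen statement. -/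
noncomputable abbrev TorLen {n : ℕ} (g : Fin (n + 1) → ℕ) (t : ℕ) : ℕ∞ :=
  Module.length (MvPolynomial (Fin (n + 1)) K)
      (((CategoryTheory.Tor (ModuleCat.{0} (MvPolynomial (Fin (n + 1)) K)) t).obj
        (ModuleCat.of (MvPolynomial (Fin (n + 1)) K)
          (MvPolynomial (Fin (n + 1)) K ⧸ II K g))).obj
        (ModuleCat.of (MvPolynomial (Fin (n + 1)) K)
          (MvPolynomial (Fin (n + 1)) K ⧸ Ideal.span (Set.range
            (X : Fin (n + 1) → MvPolynomial (Fin (n + 1)) K)))))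

/-- Betti numbers in homological degree at least two. -/
theorem tor_ge_two {c : ℕ} (g : Fin (c + 1 + 1) → ℕ) (hg : StrictMono g) (h0 : 0 < g 0)
    (hmin : ∀ j : Fin (c + 1 + 1), ¬ ∃ d : Fin (c + 1 + 1) → ℕ, d j = 0 ∧ ∑ l, d l * g l = g j)
    (s : ℕ) :
    ∃ b : ℕ, TorLen K g (s + 2) ≤
      (b : ℕ∞) ∧ (c + 1) * (b + (c + 1).choose (s + 3)) +
        (c + 1) * (g (Fin.last (c + 1)) - g 0) * (c + 1).choose (s + 1) ≤
        ((c + 1).choose (s + 2) + (c + 1).choose (s + 1)) * (g (Fin.last (c + 1)) - g 0) ^ 2 := by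
  classical
  have hJ : Ideal.span (Set.range (X : Fin (c + 1 + 1) → MvPolynomial (Fin (c + 1 + 1)) K)) =
      Ideal.span (Set.range (fun j => (X (ix c j) : MvPolynomial (Fin (c + 1 + 1)) K))) := by
    congr 1
    ext p
    constructor
    · rintro ⟨i, rfl⟩
      obtain ⟨j, rfl⟩ := ix_surj c i
      exact ⟨j, rfl⟩
    · rintro ⟨j, rfl⟩
      exact ⟨_, rfl⟩
  have hreg : ∀ (j : Fin (c + 1 + 1)) (a : MvPolynomial (Fin (c + 1 + 1)) K),
      X (ix c j) * a ∈ Ideal.span
        ((fun l => (X (ix c l) : MvPolynomial (Fin (c + 1 + 1)) K)) '' {l | j < l}) →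
      a ∈ Ideal.span
        ((fun l => (X (ix c l) : MvPolynomial (Fin (c + 1 + 1)) K)) '' {l | j < l}) :=
    fun j a h => hreg_of_inj (ix c) (ix_inj c) j a h
  obtain ⟨b, hb1, hb2⟩ := hl_bound2 K g hg h0 hmin s
  exact ⟨b, (tor_le (fun j => (X (ix c j) : MvPolynomial (Fin (c + 1 + 1)) K)) _ _ hJ hreg
    (s + 1)).trans hb1, hb2⟩

/-- The width is at least the number of generators minus one. -/
theorem le_width {n : ℕ} (g : Fin (n + 1) → ℕ) (hg : StrictMono g) :
    n ≤ g (Fin.last n) - g 0 := by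
  have h : ∀ i : Fin (n + 1), g 0 + i.val ≤ g i := by
    intro i
    induction i using Fin.induction with
    | zero => simp
    | succ i ih =>
      have h1 : g i.castSucc < g i.succ := hg (Fin.castSucc_lt_succ)
      simp only [Fin.val_castSucc, Fin.val_succ] at ih ⊢
      omega
  have := h (Fin.last n)
  simp only [Fin.val_last] at this
  omega

/-- The refined bound, all homological degrees. -/
theorem tor_all {c : ℕ} (g : Fin (c + 1 + 1) → ℕ) (hg : StrictMono g) (h0 : 0 < g 0)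
    (hmin : ∀ j : Fin (c + 1 + 1), ¬ ∃ d : Fin (c + 1 + 1) → ℕ, d j = 0 ∧ ∑ l, d l * g l = g j)
    (t : ℕ) (ht : 1 ≤ t) :
    ((c + 1 : ℕ) : ℕ∞) * (TorLen K g t + ((c + 1).choose (t + 1) : ℕ)) +
      (((c + 1) * (g (Fin.last (c + 1)) - g 0) * (c + 1).choose (t - 1) : ℕ) : ℕ∞) ≤
      (((c + 1 + 1).choose t * (g (Fin.last (c + 1)) - g 0) ^ 2 : ℕ) : ℕ∞) := by
  rcases Nat.lt_or_ge t 2 with h | h
  · have ht1 : t = 1 := by omega
    subst ht1
    have h1 := KMain.tor_bound K g hg h0 hmin 1 le_rfl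
    have h2 := first (c + 1) (g (Fin.last (c + 1)) - g 0)
      ((g (Fin.last (c + 1)) - g 0 + 1).choose 2) (by omega) (le_width g hg) le_rfl
    rw [one_mul] at h1
    refine (add_le_add_left (mul_le_mul_right (add_le_add_left h1 _) _) _).trans ?_
    have h3 : (c + 1 + 1).choose 1 = c + 1 + 1 := Nat.choose_one_right _
    rw [h3]
    simp only [Nat.sub_self, Nat.choose_zero_right, mul_one]
    exact_mod_cast h2
  · obtain ⟨s, rfl⟩ : ∃ s, t = s + 2 := ⟨t - 2, by omega⟩
    obtain ⟨b, hb1, hb2⟩ := tor_ge_two K g hg h0 hmin s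
    refine (add_le_add_left (mul_le_mul_right (add_le_add_left hb1 _) _) _).trans ?_
    have h3 : (c + 1 + 1).choose (s + 2) = (c + 1).choose (s + 1) + (c + 1).choose (s + 2) :=
      Nat.choose_succ_succ _ _
    rw [h3, add_comm ((c + 1).choose (s + 1))]
    have h4 : s + 2 - 1 = s + 1 := by omega
    rw [h4]
    exact_mod_cast hb2

end Pool.Agent.KS6_36.QuadWidth
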